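import Mathlib

open MeasureTheory Set
open scoped ContDiff

namespace Pool.Agent.H.MP_27f38a_gt

noncomputable section

/-- Lebesgue measure on the time interval [0,1]. -/
abbrev mu : Measure ℝ := volume.restrict (Icc (0:ℝ) 1)

/-- `g` is the admissible path starting at `p` with square integrable control `u` in the frame `X`. -/
def Traj {n k : ℕ} (X : Fin k → (Fin n → ℝ) → (Fin n → ℝ)) (p : Fin n → ℝ)
    (u : Fin k → Lp ℝ 2 mu) (g : ℝ → Fin n → ℝ) : Prop :=
  ContinuousOn g (Icc 0 1) ∧ Integrable (fun s => ∑ i, u i s • X i (g s)) mu ∧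
    ∀ t ∈ Icc (0:ℝ) 1, g t = p + ∫ s in (0:ℝ)..t, ∑ i, u i s • X i (g s) ∂mu

/-- `E p` is the endpoint map at `p`, written in the control chart. -/
def IsEndpoint {n k : ℕ} (X : Fin k → (Fin n → ℝ) → (Fin n → ℝ))
    (E : (Fin n → ℝ) → (Fin k → Lp ℝ 2 mu) → (Fin n → ℝ)) : Prop :=
  ∀ p, ContDiff ℝ ∞ (E p) ∧ ∀ u, (∃ g, Traj X p u g) ∧ ∀ g, Traj X p u g → g 1 = E p u

/-- Any two points are joined by a finite concatenation of singular curves. -/
def SingTrans {n k : ℕ} (E : (Fin n → ℝ) → (Fin k → Lp ℝ 2 mu) → (Fin n → ℝ)) : Prop :=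
  ∀ p q, Relation.ReflTransGen
    (fun a b => ∃ u, E a u = b ∧ ¬ Function.Surjective (fderiv ℝ (E a) u)) p q

/-- `F` is a diffeomorphism preserving the distribution spanned by the frame `X`. -/
def IsSym {n k : ℕ} (X : Fin k → (Fin n → ℝ) → (Fin n → ℝ))
    (F : (Fin n → ℝ) → (Fin n → ℝ)) : Prop :=
  ContDiff ℝ ∞ F ∧ (∃ H, ContDiff ℝ ∞ H ∧ Function.LeftInverse H F ∧ Function.RightInverse H F) ∧
    ∀ q, (Submodule.span ℝ (range fun i => X i q)).map (fderiv ℝ F q).toLinearMap =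
      Submodule.span ℝ (range fun i => X i (F q))

end

end Pool.Agent.H.MP_27f38a_gt
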