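import Pool.Agent.H.MP_27f38a_gt.Vol

open MeasureTheory Set
open scoped ENNReal ContDiff

namespace Pool.Agent.H.MP_27f38a_gt

noncomputable section

abbrev V := Fin 6 → ℝ

def X : Fin 4 → V → V := fun i q =>
  ![![1, 0, q 1, 0, 0, 0], ![0, 1, 0, 0, 0, 0], ![0, 0, 0, 1, 0, q 4], ![0, 0, 0, 0, 1, 0]] i

theorem X_smooth (i : Fin 4) : ContDiff ℝ ∞ (X i) := by
  rw [contDiff_pi]
  intro j
  fin_cases i <;> fin_cases j <;> simp [X] <;> fun_prop

theorem comb (c : Fin 4 → ℝ) (q : V) :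
    ∑ i, c i • X i q = ![c 0, c 1, q 1 * c 0, c 2, c 3, q 4 * c 2] := by
  funext j
  fin_cases j <;> simp [X, Fin.sum_univ_four, mul_comm]

theorem X_li (q : V) : LinearIndependent ℝ fun i => X i q := by
  rw [Fintype.linearIndependent_iff]
  intro c hc i
  rw [comb] at hc
  have h0 := congrFun hc 0
  have h1 := congrFun hc 1
  have h3 := congrFun hc 3
  have h4 := congrFun hc 4
  fin_cases i <;> simp_all

theorem mem_D (q v : V) : v ∈ Submodule.span ℝ (range fun i => X i q) ↔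
    v 2 = q 1 * v 0 ∧ v 5 = q 4 * v 3 := by
  rw [Submodule.mem_span_range_iff_exists_fun]
  constructor
  · rintro ⟨c, rfl⟩
    rw [comb]
    simp
  · rintro ⟨h1, h2⟩
    refine ⟨![v 0, v 1, v 3, v 4], ?_⟩
    rw [comb]
    funext j
    fin_cases j <;> simp [h1, h2]

def path (p : V) (u : Fin 4 → L2) (t : ℝ) : V :=
  ![p 0 + P (u 0) t, p 1 + P (u 1) t, p 2 + (p 1 * P (u 0) t + Q (u 1, u 0) t),
    p 3 + P (u 2) t, p 4 + P (u 3) t, p 5 + (p 4 * P (u 2) t + Q (u 3, u 2) t)]

def E (p : V) (u : Fin 4 → L2) : V := path p u 1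

theorem cL (i : Fin 4) : ContDiff ℝ ∞ fun u : Fin 4 → L2 => P (u i) 1 :=
  L_lin.contDiff.comp (contDiff_apply ℝ L2 i)

theorem cB (i j : Fin 4) : ContDiff ℝ ∞ fun u : Fin 4 → L2 => Q (u i, u j) 1 :=
  B_bil.contDiff.comp ((contDiff_apply ℝ L2 i).prodMk (contDiff_apply ℝ L2 j))

theorem E_smooth (p : V) : ContDiff ℝ ∞ (E p) := by
  rw [contDiff_pi]
  intro j
  fin_cases j
  · exact contDiff_const.add (cL 0)
  · exact contDiff_const.add (cL 1)
  · exact contDiff_const.add ((contDiff_const.mul (cL 0)).add (cB 1 0))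
  · exact contDiff_const.add (cL 2)
  · exact contDiff_const.add (cL 3)
  · exact contDiff_const.add ((contDiff_const.mul (cL 2)).add (cB 3 2))

theorem comp_int {f : ℝ → V} (hf : Integrable f mu) (t : ℝ) (j : Fin 6) :
    (∫ s in (0:ℝ)..t, f s ∂mu) j = ∫ s in (0:ℝ)..t, f s j ∂mu :=
  ((ContinuousLinearMap.proj (R := ℝ) (φ := fun _ : Fin 6 => ℝ) j).intervalIntegral_comp_comm
    hf.intervalIntegrable).symm

theorem intg3 (a : ℝ) (v u : L2) : Integrable (fun s => (a + P v s) * u s) mu := by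
  have := ((intg u).const_mul a).add (intg2 v u)
  refine this.congr (Filter.Eventually.of_forall fun s => ?_)
  simp only [Pi.add_apply]
  ring

theorem int3 (a : ℝ) (v u : L2) (t : ℝ) :
    ∫ s in (0:ℝ)..t, (a + P v s) * u s ∂mu = a * P u t + Q (v, u) t := by
  unfold Q
  conv_rhs => rw [P]
  rw [← intervalIntegral.integral_const_mul, ← intervalIntegral.integral_add
    ((intg u).const_mul a).intervalIntegrable (intg2 v u).intervalIntegrable]
  simp only [add_mul]

theorem traj_path (p : V) (u : Fin 4 → L2) : Traj X p u (path p u) := by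
  have hI : Integrable (fun s => ∑ i, u i s • X i (path p u s)) mu := by
    simp only [comb]
    refine Integrable.of_eval fun j => ?_
    fin_cases j
    · exact intg (u 0)
    · exact intg (u 1)
    · exact intg3 (p 1) (u 1) (u 0)
    · exact intg (u 2)
    · exact intg (u 3)
    · exact intg3 (p 4) (u 3) (u 2)
  refine ⟨?_, hI, fun t _ => ?_⟩
  · refine Continuous.continuousOn (continuous_pi fun j => ?_)
    fin_cases j
    · exact continuous_const.add (P_cont _)
    · exact continuous_const.add (P_cont _)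
    · exact continuous_const.add ((continuous_const.mul (P_cont _)).add (Q_cont _))
    · exact continuous_const.add (P_cont _)
    · exact continuous_const.add (P_cont _)
    · exact continuous_const.add ((continuous_const.mul (P_cont _)).add (Q_cont _))
  · funext j
    rw [Pi.add_apply, comp_int hI]
    simp only [comb]
    fin_cases j
    · rfl
    · rfl
    · exact congrArg (p 2 + ·) (int3 (p 1) (u 1) (u 0) t).symm
    · rfl
    · rfl
    · exact congrArg (p 5 + ·) (int3 (p 4) (u 3) (u 2) t).symm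

theorem traj_uniq (p : V) (u : Fin 4 → L2) (g : ℝ → V) (h : Traj X p u g) : g 1 = E p u := by
  obtain ⟨-, hI, h⟩ := h
  have h' : ∀ t ∈ Icc (0:ℝ) 1, ∀ j, g t j = p j + ∫ s in (0:ℝ)..t,
      (![u 0 s, u 1 s, g s 1 * u 0 s, u 2 s, u 3 s, g s 4 * u 2 s] : V) j ∂mu := by
    intro t ht j
    rw [h t ht, Pi.add_apply, comp_int hI]
    simp only [comb]
  have one : (1:ℝ) ∈ Icc (0:ℝ) 1 := ⟨zero_le_one, le_rfl⟩
  have y1 : ∀ t ∈ Icc (0:ℝ) 1, g t 1 = p 1 + P (u 1) t := fun t ht => h' t ht 1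
  have y4 : ∀ t ∈ Icc (0:ℝ) 1, g t 4 = p 4 + P (u 3) t := fun t ht => h' t ht 4
  funext j
  fin_cases j
  · exact h' 1 one 0
  · exact h' 1 one 1
  · refine (h' 1 one 2).trans (congrArg (p 2 + ·) ?_)
    rw [← int3]
    refine intervalIntegral.integral_congr fun s hs => ?_
    rw [uIcc_of_le zero_le_one] at hs
    simp [y1 s hs]
  · exact h' 1 one 3
  · exact h' 1 one 4
  · refine (h' 1 one 5).trans (congrArg (p 5 + ·) ?_)
    rw [← int3]
    refine intervalIntegral.integral_congr fun s hs => ?_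
    rw [uIcc_of_le zero_le_one] at hs
    simp [y4 s hs]

theorem isEnd : IsEndpoint X E := fun p =>
  ⟨E_smooth p, fun u => ⟨⟨_, traj_path p u⟩, traj_uniq p u⟩⟩

theorem sing_aux (p : V) (u : Fin 4 → L2) (i j : Fin 4) (x y z : Fin 6) (hxz : x ≠ z)
    (hi : u i = 0) (hj : u j = 0)
    (hE : ∀ w, E p w z - p y * E p w x = (p z - p y * p x) + Q (w j, w i) 1) :
    ¬ Function.Surjective (fderiv ℝ (E p) u) := by
  intro hs
  have hd : HasFDerivAt (E p) (fderiv ℝ (E p) u) u :=
    ((E_smooth p).differentiable (by simp) u).hasFDerivAt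
  let l : V →L[ℝ] ℝ := ContinuousLinearMap.proj (R := ℝ) (φ := fun _ : Fin 6 => ℝ) z -
    p y • ContinuousLinearMap.proj (R := ℝ) (φ := fun _ : Fin 6 => ℝ) x
  have h1 : HasFDerivAt (fun w => l (E p w)) (l.comp (fderiv ℝ (E p) u)) u :=
    l.hasFDerivAt.comp u hd
  let m : (Fin 4 → L2) →L[ℝ] L2 × L2 :=
    (ContinuousLinearMap.proj (R := ℝ) (φ := fun _ : Fin 4 => L2) j).prod
      (ContinuousLinearMap.proj (R := ℝ) (φ := fun _ : Fin 4 => L2) i)
  have h2 : HasFDerivAt (fun w => (p z - p y * p x) + Q (m w) 1)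
      ((B_bil.deriv (m u)).comp m) u :=
    ((B_bil.hasFDerivAt (m u)).comp u m.hasFDerivAt).const_add _
  have h3 : (fun w => l (E p w)) = fun w => (p z - p y * p x) + Q (m w) 1 := by
    funext w
    exact hE w
  rw [h3] at h1
  have h4 := h1.unique h2
  obtain ⟨w, hw⟩ := hs (Pi.single z 1)
  have h5 := congrArg (fun T => T w) h4
  simp only [ContinuousLinearMap.comp_apply, hw, IsBoundedBilinearMap.deriv_apply] at h5
  have h6 : m u = (0, 0) := Prod.ext hj hi
  rw [h6] at h5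
  simp [l, Q_zl, Q_zr, Pi.single_eq_of_ne hxz] at h5

theorem sing1 (p : V) (u : Fin 4 → L2) (h2 : u 2 = 0) (h3 : u 3 = 0) :
    ¬ Function.Surjective (fderiv ℝ (E p) u) :=
  sing_aux p u 2 3 3 4 5 (by decide) h2 h3 fun w => by
    simp only [E, path]
    simp
    ring

theorem sing2 (p : V) (u : Fin 4 → L2) (h2 : u 0 = 0) (h3 : u 1 = 0) :
    ¬ Function.Surjective (fderiv ℝ (E p) u) :=
  sing_aux p u 0 1 0 1 2 (by decide) h2 h3 fun w => by
    simp only [E, path]
    simp
    ring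

def St (a b : V) : Prop := ∃ u, E a u = b ∧ ¬ Function.Surjective (fderiv ℝ (E a) u)

theorem m0 (x y z x' y' z' a : ℝ) : St ![x, y, z, x', y', z'] ![x + a, y, z + y * a, x', y', z'] :=
  ⟨![cst a, 0, 0, 0], by
    funext j
    fin_cases j <;> simp [E, path, P_cst, P_zero, Q_zl], sing1 _ _ rfl rfl⟩

theorem m1 (x y z x' y' z' a : ℝ) : St ![x, y, z, x', y', z'] ![x, a, z, x', y', z'] :=
  ⟨![0, cst (a - y), 0, 0], by
    funext j
    fin_cases j <;> simp [E, path, P_cst, P_zero, Q_zl, Q_zr], sing1 _ _ rfl rfl⟩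

theorem m2 (x y z x' y' z' a : ℝ) : St ![x, y, z, x', y', z'] ![x, y, z, x' + a, y', z' + y' * a] :=
  ⟨![0, 0, cst a, 0], by
    funext j
    fin_cases j <;> simp [E, path, P_cst, P_zero, Q_zl], sing2 _ _ rfl rfl⟩

theorem m3 (x y z x' y' z' a : ℝ) : St ![x, y, z, x', y', z'] ![x, y, z, x', a, z'] :=
  ⟨![0, 0, 0, cst (a - y')], by
    funext j
    fin_cases j <;> simp [E, path, P_cst, P_zero, Q_zl, Q_zr], sing2 _ _ rfl rfl⟩

theorem mv1 (x y z x' y' z' a b c : ℝ) :
    Relation.ReflTransGen St ![x, y, z, x', y', z'] ![a, b, c, x', y', z'] := by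
  have := ((((Relation.ReflTransGen.single (m1 x y z x' y' z' (c - z))).tail
    (m0 _ _ _ _ _ _ 1)).tail (m1 _ _ _ _ _ _ 0)).tail (m0 _ _ _ _ _ _ (a - x - 1))).tail
    (m1 _ _ _ _ _ _ b)
  convert this using 2 <;> simp

theorem mv2 (x y z x' y' z' a b c : ℝ) :
    Relation.ReflTransGen St ![x, y, z, x', y', z'] ![x, y, z, a, b, c] := by
  have := ((((Relation.ReflTransGen.single (m3 x y z x' y' z' (c - z'))).tail
    (m2 _ _ _ _ _ _ 1)).tail (m3 _ _ _ _ _ _ 0)).tail (m2 _ _ _ _ _ _ (a - x' - 1))).tail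
    (m3 _ _ _ _ _ _ b)
  convert this using 5 <;> simp

theorem eta (p : V) : p = ![p 0, p 1, p 2, p 3, p 4, p 5] := by
  funext j
  fin_cases j <;> rfl

theorem singTrans : SingTrans E := by
  intro p q
  rw [eta p, eta q]
  exact (mv1 _ _ _ _ _ _ _ _ _).trans (mv2 _ _ _ _ _ _ _ _ _)

def fl (f : Polynomial ℝ) (t : ℝ) (q : V) : V :=
  ![q 0, q 1 + t * f.derivative.eval (q 0), q 2 + t * f.eval (q 0), q 3, q 4, q 5]

theorem pol_smooth (f : Polynomial ℝ) : ContDiff ℝ ∞ fun x : ℝ => f.eval x := by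
  have := Polynomial.contDiff_aeval (𝕜 := ℝ) f ∞
  simpa [Polynomial.coe_aeval_eq_eval] using this

theorem fl_smooth (f : Polynomial ℝ) : ContDiff ℝ ∞ (Function.uncurry (fl f)) := by
  have h1 := pol_smooth f
  have h2 := pol_smooth f.derivative
  rw [contDiff_pi]
  intro j
  fin_cases j <;> simp [fl, Function.uncurry] <;> fun_prop

theorem fl_zero (f : Polynomial ℝ) : fl f 0 = id := by
  funext q j
  fin_cases j <;> simp [fl]

theorem fl_add (f : Polynomial ℝ) (s t : ℝ) : fl f (s + t) = fl f s ∘ fl f t := by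
  funext q j
  fin_cases j <;> simp [fl] <;> ring

theorem fl_smooth' (f : Polynomial ℝ) (t : ℝ) : ContDiff ℝ ∞ (fl f t) :=
  (fl_smooth f).comp (contDiff_const.prodMk contDiff_id)

theorem fl_deriv (f : Polynomial ℝ) (t : ℝ) (q v : V) : fderiv ℝ (fl f t) q v =
    ![v 0, v 1 + t * (f.derivative.derivative.eval (q 0) * v 0),
      v 2 + t * (f.derivative.eval (q 0) * v 0), v 3, v 4, v 5] := by
  let pr : Fin 6 → V →L[ℝ] ℝ := fun j => ContinuousLinearMap.proj (R := ℝ) (φ := fun _ : Fin 6 => ℝ) j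
  have hp : ∀ j, HasFDerivAt (fun q : V => q j) (pr j) q := fun j => (pr j).hasFDerivAt
  have hf : ∀ g : Polynomial ℝ, HasFDerivAt (fun q : V => g.eval (q 0))
      (g.derivative.eval (q 0) • pr 0) q := fun g =>
    HasDerivAt.comp_hasFDerivAt (f := fun q : V => q 0) q (g.hasDerivAt (q 0)) (hp 0)
  have h : HasFDerivAt (fl f t) (ContinuousLinearMap.pi
      ![pr 0, pr 1 + t • (f.derivative.derivative.eval (q 0) • pr 0),
        pr 2 + t • (f.derivative.eval (q 0) • pr 0), pr 3, pr 4, pr 5]) q := by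
    rw [hasFDerivAt_pi']
    intro j
    rw [ContinuousLinearMap.proj_pi]
    fin_cases j
    · exact hp 0
    · exact (hp 1).add ((hf _).const_mul t)
    · exact (hp 2).add ((hf _).const_mul t)
    · exact hp 3
    · exact hp 4
    · exact hp 5
  rw [h.fderiv]
  funext j
  fin_cases j <;> simp [pr]

theorem fl_sym (f : Polynomial ℝ) (t : ℝ) : IsSym X (fl f t) := by
  refine ⟨fl_smooth' f t, ⟨fl f (-t), fl_smooth' f _, fun q => ?_, fun q => ?_⟩, fun q => ?_⟩
  · have := congrFun (fl_add f (-t) t) q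
    simpa [fl_zero] using this.symm
  · have := congrFun (fl_add f t (-t)) q
    simpa [fl_zero] using this.symm
  · ext w
    rw [Submodule.mem_map, mem_D]
    constructor
    · rintro ⟨v, hv, rfl⟩
      rw [mem_D] at hv
      simp only [ContinuousLinearMap.coe_coe, fl_deriv]
      simp [fl, hv.1, hv.2]
      ring
    · rintro ⟨h1, h2⟩
      refine ⟨![w 0, w 1 - t * (f.derivative.derivative.eval (q 0) * w 0),
        w 2 - t * (f.derivative.eval (q 0) * w 0), w 3, w 4, w 5], ?_, ?_⟩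
      · rw [mem_D]
        simp [fl] at h1 h2
        simp [h1, h2]
        ring
      · simp only [ContinuousLinearMap.coe_coe, fl_deriv]
        funext j
        fin_cases j <;> simp

theorem interp (N : ℕ) (c : Fin N → ℝ) : ∃ f : Polynomial ℝ, ∀ j : Fin N, f.eval (j : ℝ) = c j := by
  refine ⟨Lagrange.interpolate Finset.univ (fun j : Fin N => ((j : ℕ) : ℝ)) c, fun j => ?_⟩
  refine Lagrange.eval_interpolate_at_node (v := fun j : Fin N => ((j : ℕ) : ℝ)) c ?_
    (Finset.mem_univ j)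
  intro a _ b _ h
  exact Fin.ext (Nat.cast_injective (R := ℝ) h)

theorem notLie (d : ℕ) (G : Type) [TopologicalSpace G]
    [ChartedSpace (EuclideanSpace ℝ (Fin d)) G]
    [IsManifold (modelWithCornersSelf ℝ (EuclideanSpace ℝ (Fin d))) 1 G]
    [SecondCountableTopology G] (a : G → V → V)
    (h : ContMDiff ((modelWithCornersSelf ℝ (EuclideanSpace ℝ (Fin d))).prod
      (modelWithCornersSelf ℝ V)) (modelWithCornersSelf ℝ V) 1 (Function.uncurry a)) :
    ∃ f : Polynomial ℝ, ∀ g, a g ≠ fl f 1 := by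
  let ev : G → Fin (d + 1) → ℝ := fun g j => a g ![((j : ℕ) : ℝ), 0, 0, 0, 0, 0] 2
  have hev : ContMDiff (modelWithCornersSelf ℝ (EuclideanSpace ℝ (Fin d)))
      (modelWithCornersSelf ℝ (Fin (d + 1) → ℝ)) 1 ev := by
    rw [contMDiff_pi_space]
    intro j
    have h1 : ContMDiff (modelWithCornersSelf ℝ (EuclideanSpace ℝ (Fin d)))
        (modelWithCornersSelf ℝ V) 1 fun g => a g ![((j : ℕ) : ℝ), 0, 0, 0, 0, 0] :=
      h.comp (contMDiff_id.prodMk contMDiff_const)
    exact contMDiff_pi_space.1 h1 2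
  have hn := not_surj ev hev
  simp only [Function.Surjective, not_forall, not_exists] at hn
  obtain ⟨c, hc⟩ := hn
  obtain ⟨f, hf⟩ := interp (d + 1) c
  refine ⟨f, fun g hg => hc g ?_⟩
  funext j
  simp [ev, hg, fl, hf]

end

end Pool.Agent.H.MP_27f38a_gt
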