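import Pool.Agent.H.MP_27f38a_gt.Defs

open MeasureTheory Set
open scoped ENNReal

namespace Pool.Agent.H.MP_27f38a_gt

noncomputable section

instance muProb : IsProbabilityMeasure mu := ⟨by simp [mu]⟩

abbrev L2 := Lp ℝ 2 mu

theorem intg (v : L2) : Integrable (fun s => v s) mu :=
  (Lp.memLp v).integrable (by norm_num)

theorem l1_le (v : L2) : ∫ s, ‖v s‖ ∂mu ≤ ‖v‖ := by
  have h1 : ∫ s, ‖v s‖ ∂mu = (eLpNorm v 1 mu).toReal := by
    rw [eLpNorm_one_eq_lintegral_enorm, integral_norm_eq_lintegral_enorm (Lp.aestronglyMeasurable v)]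
  rw [h1, Lp.norm_def]
  exact ENNReal.toReal_mono (Lp.eLpNorm_ne_top v)
    (eLpNorm_le_eLpNorm_of_exponent_le (by norm_num) (Lp.aestronglyMeasurable v))

def P (v : L2) (t : ℝ) : ℝ := ∫ s in (0:ℝ)..t, v s ∂mu

theorem P_cont (v : L2) : Continuous (P v) := (intg v).continuous_primitive 0

theorem ii_le {f : ℝ → ℝ} (hf : Integrable f mu) (t : ℝ) :
    ‖∫ s in (0:ℝ)..t, f s ∂mu‖ ≤ ∫ s, ‖f s‖ ∂mu :=
  (intervalIntegral.norm_integral_le_integral_norm_uIoc).trans
    (setIntegral_le_integral hf.norm (Filter.Eventually.of_forall fun _ => norm_nonneg _))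

theorem P_le (v : L2) (t : ℝ) : ‖P v t‖ ≤ ‖v‖ := (ii_le (intg v) t).trans (l1_le v)

theorem P_add (v w : L2) (t : ℝ) : P (v + w) t = P v t + P w t := by
  unfold P
  rw [← intervalIntegral.integral_add (intg v).intervalIntegrable (intg w).intervalIntegrable]
  refine intervalIntegral.integral_congr_ae ?_
  filter_upwards [Lp.coeFn_add v w] with s hs _
  simpa using hs

theorem P_smul (c : ℝ) (v : L2) (t : ℝ) : P (c • v) t = c * P v t := by
  unfold P
  rw [← intervalIntegral.integral_const_mul]
  refine intervalIntegral.integral_congr_ae ?_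
  filter_upwards [Lp.coeFn_smul c v] with s hs _
  simpa using hs

theorem P_zero (t : ℝ) : P 0 t = 0 := by
  have := P_smul 0 0 t
  simpa using this

theorem intg2 (v u : L2) : Integrable (fun s => P v s * u s) mu :=
  (intg u).bdd_mul (c := ‖v‖) (P_cont v).aestronglyMeasurable
    (Filter.Eventually.of_forall fun s => P_le v s)

def Q (w : L2 × L2) (t : ℝ) : ℝ := ∫ s in (0:ℝ)..t, P w.1 s * w.2 s ∂mu

theorem Q_cont (w : L2 × L2) : Continuous (Q w) := (intg2 w.1 w.2).continuous_primitive 0

theorem B_bil : IsBoundedBilinearMap ℝ (fun w => Q w 1) where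
  add_left x y u := by
    unfold Q
    rw [← intervalIntegral.integral_add (intg2 x u).intervalIntegrable
      (intg2 y u).intervalIntegrable]
    simp only [P_add, add_mul]
  smul_left c x u := by
    unfold Q
    rw [smul_eq_mul, ← intervalIntegral.integral_const_mul]
    simp only [P_smul, mul_assoc]
  add_right x u v := by
    unfold Q
    rw [← intervalIntegral.integral_add (intg2 x u).intervalIntegrable
      (intg2 x v).intervalIntegrable]
    refine intervalIntegral.integral_congr_ae ?_
    filter_upwards [Lp.coeFn_add u v] with s hs _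
    simp only [hs, Pi.add_apply, mul_add]
  smul_right c x u := by
    unfold Q
    rw [smul_eq_mul, ← intervalIntegral.integral_const_mul]
    refine intervalIntegral.integral_congr_ae ?_
    filter_upwards [Lp.coeFn_smul c u] with s hs _
    simp only [hs, Pi.smul_apply, smul_eq_mul]
    ring
  bound := by
    refine ⟨1, one_pos, fun x u => ?_⟩
    refine (ii_le (intg2 x u) 1).trans ?_
    have h1 : ∫ s, ‖P x s * u s‖ ∂mu ≤ ∫ s, ‖x‖ * ‖u s‖ ∂mu := by
      refine integral_mono (intg2 x u).norm ((intg u).norm.const_mul _) fun s => ?_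
      simp only [norm_mul]
      exact mul_le_mul_of_nonneg_right (P_le x s) (norm_nonneg _)
    rw [integral_const_mul] at h1
    have h2 := l1_le u
    have h3 := norm_nonneg x
    nlinarith

theorem L_lin : IsBoundedLinearMap ℝ (fun v : L2 => P v 1) where
  map_add x y := P_add x y 1
  map_smul c x := P_smul c x 1
  bound := ⟨1, one_pos, fun x => by simpa using P_le x 1⟩

theorem Q_zl (u : L2) : Q (0, u) 1 = 0 := by
  have := B_bil.smul_left 0 0 u
  simpa using this

theorem Q_zr (u : L2) : Q (u, 0) 1 = 0 := by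
  have := B_bil.smul_right 0 u 0
  simpa using this

def cst (a : ℝ) : L2 := Lp.const 2 mu a

theorem P_cst (a : ℝ) : P (cst a) 1 = a := by
  unfold P
  have : ∫ s in (0:ℝ)..1, (cst a) s ∂mu = ∫ _ in (0:ℝ)..1, a ∂mu := by
    refine intervalIntegral.integral_congr_ae ?_
    filter_upwards [Lp.coeFn_const 2 mu a] with s hs _
    exact hs
  rw [this, intervalIntegral.integral_of_le zero_le_one]
  simp [mu, Measure.real, Measure.restrict_apply, inter_eq_left.2 Ioc_subset_Icc_self]

/-- A C^1 map from a second countable manifold of dimension `d` misses a point of `Fin (d+1) → ℝ`. -/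
theorem not_surj {d : ℕ} {G : Type} [TopologicalSpace G]
    [ChartedSpace (EuclideanSpace ℝ (Fin d)) G]
    [IsManifold (modelWithCornersSelf ℝ (EuclideanSpace ℝ (Fin d))) 1 G]
    [SecondCountableTopology G] (ev : G → (Fin (d + 1) → ℝ))
    (h : ContMDiff (modelWithCornersSelf ℝ (EuclideanSpace ℝ (Fin d)))
      (modelWithCornersSelf ℝ (Fin (d + 1) → ℝ)) 1 ev) : ¬ Function.Surjective ev := by
  intro hs
  set I := modelWithCornersSelf ℝ (EuclideanSpace ℝ (Fin d))
  obtain ⟨s, hc, hu⟩ := TopologicalSpace.countable_cover_nhds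
    (f := fun x : G => (extChartAt I x).source) fun x => extChartAt_source_mem_nhds x
  have h1 : (univ : Set (Fin (d + 1) → ℝ)) ⊆
      ⋃ x ∈ s, (ev ∘ (extChartAt I x).symm) '' (extChartAt I x).target := by
    intro c _
    obtain ⟨g, rfl⟩ := hs c
    have : g ∈ ⋃ x ∈ s, (extChartAt I x).source := hu ▸ mem_univ g
    simp only [mem_iUnion] at this ⊢
    obtain ⟨x, hx, hg⟩ := this
    exact ⟨x, hx, extChartAt I x g, (extChartAt I x).map_source hg, by
      simp only [Function.comp, (extChartAt I x).left_inv hg]⟩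
  have h2 := dimH_mono h1
  rw [dimH_bUnion hc, Real.dimH_univ_eq_finrank] at h2
  have h3 : ∀ x : G, dimH ((ev ∘ (extChartAt I x).symm) '' (extChartAt I x).target) ≤ (d : ℝ≥0∞) := by
    intro x
    have h4 : ContDiffOn ℝ 1 (ev ∘ (extChartAt I x).symm) (extChartAt I x).target :=
      contMDiffOn_iff_contDiffOn.1
        (h.comp_contMDiffOn (contMDiffOn_extChartAt_symm (n := 1) x))
    refine (dimH_image_le_of_locally_lipschitzOn fun y hy => ?_).trans ?_
    · obtain ⟨K, t, ht, hK⟩ :=
        (h4.contDiffAt ((isOpen_extChartAt_target x).mem_nhds hy)).exists_lipschitzOnWith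
      exact ⟨K, t, mem_nhdsWithin_of_mem_nhds ht, hK⟩
    · refine (dimH_mono (subset_univ _)).trans ?_
      rw [Real.dimH_univ_eq_finrank]
      simp
  have h5 : (⨆ x ∈ s, dimH ((ev ∘ (extChartAt I x).symm) '' (extChartAt I x).target)) ≤ (d : ℝ≥0∞) :=
    iSup₂_le fun x _ => h3 x
  have h6 := h2.trans h5
  simp only [Module.finrank_fintype_fun_eq_card, Fintype.card_fin, Nat.cast_le] at h6
  omega

end

end Pool.Agent.H.MP_27f38a_gt
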